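import Pool.Agent.G4.V.Down
import Pool.Agent.H7.Bir.Open
import Pool.Agent.H17EF.Four

/-!
# SD Virt: quasi-projective surfaces which virtually dominate a projective surface

`virt_open_four`: let the closed surface `X` of `ℙ^N` given by `P` have the properties of the Green–Griffiths–Lang conjecture.  Then every
quasi-projective surface `U` of log general type with a finite étale covering `U' → U` and a dominant rational map `U' ⇢ X` has them.
-/

set_option autoImplicit false

open Topology Filter MvPolynomial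

noncomputable section

namespace Pool.Agent.H66.SD

open Pool.Agent.H17 (PN VanishesAt HolomorphicInto puncturedDisc ZariskiClosedIn)
open Pool.Agent.H17LG.Variety (FunField IsLogGeneralType)
open Pool.Agent.H62.FC (Homog)
open Pool.Agent.H62.SA (locVar OnBd)
open Pool.Agent.H62.Qe (IsEtaleOver)
open Pool.Agent.H17EF (projVar)
open Pool.Agent.H22.TB (GGLC)
open Pool.Agent.H7.Bir (GGL GGLOpen)
open Pool.Agent.G4F (GGLCOpen gglo_virtual)

variable {N M L s s' : ℕ}

theorem gglc_of_ggl {P : Ideal (MvPolynomial (Fin (N + 1)) ℂ)} [P.IsPrime] {Ξ : Set (PN N)} (h : GGL P Ξ) : GGLC P Ξ :=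
  ⟨h.closed, h.proper, h.generalType, h.picard, h.brody, fun Q _ hQ hPQ hsub hz => h.strongly Q hQ hPQ hsub 1 le_rfl hz⟩

theorem open_of_c {P : Ideal (MvPolynomial (Fin (N + 1)) ℂ)} [P.IsPrime] (hP : Homog P) (hz : ∃ z : Fin 2 → FunField P, IsTranscendenceBasis ℂ z)
    {G : Fin s → MvPolynomial (Fin (N + 1)) ℂ} (hG : ∀ m, ∃ n, (G m).IsHomogeneous n) {Ξ : Set (PN N)} (h : GGLCOpen P G Ξ) : GGLOpen P G Ξ :=
  ⟨h.closed, h.proper, h.logGeneralType, h.picard, h.brody, fun Q _ hQ hPQ hsub w hw hzw =>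
    Pool.Agent.H13.CV.strongly_of_brodyL P hP hz hG h.closed (h.logGeneralType 2 (by norm_num) hz) h.brody Q hQ hPQ hsub w hw hzw⟩

/-- **The properties of the conjecture for all quasi-projective surfaces which virtually dominate `X`.**  `U' = locVar P' G'` is a finite étale covering of
`U = locVar R G`, and `U'` has a dominant rational map to `X`. -/
theorem virt_open_four {P : Ideal (MvPolynomial (Fin (N + 1)) ℂ)} [P.IsPrime] (hz : ∃ z : Fin 2 → FunField P, IsTranscendenceBasis ℂ z)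
    {Ξ : Set (PN N)} (h : GGL P Ξ) {P' : Ideal (MvPolynomial (Fin (M + 1)) ℂ)} [P'.IsPrime] (hP' : Homog P')
    (hz' : ∃ z : Fin 2 → FunField P', IsTranscendenceBasis ℂ z) (e : FunField P →ₐ[ℂ] FunField P') {R : Ideal (MvPolynomial (Fin (L + 1)) ℂ)} [R.IsPrime]
    (hR : Homog R) (hw : ∃ z : Fin 2 → FunField R, IsTranscendenceBasis ℂ z) {G : Fin s → MvPolynomial (Fin (L + 1)) ℂ}
    {G' : Fin s' → MvPolynomial (Fin (M + 1)) ℂ} (hG : ∀ m, ∃ n, (G m).IsHomogeneous n) (hG' : ∀ m, ∃ n, (G' m).IsHomogeneous n)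
    (hne : ∃ m, G m ∉ R) (hgt : IsLogGeneralType (OnBd R G (k := 2))) {q : PN M → PN L} (hq : IsEtaleOver R P' G G' q) :
    ∃ Ξ' : Set (PN L), GGLOpen R G Ξ' := by
  obtain ⟨Ξ', h'⟩ := gglo_virtual (k := 1) hz (gglc_of_ggl h) hP' hz' e hR hw hG hG' hne hgt hq
  exact ⟨Ξ', open_of_c hR hw hG h'⟩

end Pool.Agent.H66.SD
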