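import Pool.Agent.H7.Qup.Main
import Pool.Agent.H7.Bir.Open

/-!
# SD Dom: quasi-projective surfaces which dominate a projective surface by a rational map

`dom_open_four`: let the closed surface `X` of `ℙ^N` given by `P` have the properties of the Green–Griffiths–Lang conjecture.  Then every
quasi-projective surface `U` whose function field contains the function field of `X` has them (there is a dominant rational map `U ⇢ X`).
-/

set_option autoImplicit false

open Topology Filter MvPolynomial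

noncomputable section

namespace Pool.Agent.H66.SD

open Pool.Agent.H17 (PN VanishesAt HolomorphicInto puncturedDisc vanishesAt_mk_iff ZariskiClosedIn)
open Pool.Agent.H17GT (coordFun)
open Pool.Agent.H17LG.Variety (FunField ratio IsLogGeneralType)
open Pool.Agent.H17R (gen gen_eq_zero_iff ratio_self adjoin_ratio coordFun_ne_zero_iff)
open Pool.Agent.H62.FC (Homog)
open Pool.Agent.H62.SA (locVar OnBd)
open Pool.Agent.H17EF (projVar)
open Pool.Agent.H7.Bir
open Pool.Agent.H7.Qup (IsDominantMap open_dominant)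

variable {N M : ℕ}

/-- no condition -/
def one (N : ℕ) : Fin 1 → MvPolynomial (Fin (N + 1)) ℂ := fun _ => 1

theorem one_homog (N : ℕ) : ∀ m, ∃ n, (one N m).IsHomogeneous n := fun _ => ⟨0, isHomogeneous_one _ _⟩

theorem locVar_one (P : Ideal (MvPolynomial (Fin (N + 1)) ℂ)) : locVar P (one N) = projVar P := by
  ext x
  refine ⟨fun h => h.1, fun h => ⟨h, 0, ?_⟩⟩
  unfold VanishesAt one
  rw [map_one]
  exact one_ne_zero

theorem onBd_one (P : Ideal (MvPolynomial (Fin (N + 1)) ℂ)) [P.IsPrime] {k : ℕ} :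
    OnBd P (one N) (k := k) = fun _ => False := by
  funext E
  refine eq_false ?_
  rintro ⟨j, -, -, h⟩
  have h1 := h 0
  unfold one at h1
  rw [map_one, AddValuation.map_one] at h1
  exact lt_irrefl _ h1

theorem ggl_of_open {P : Ideal (MvPolynomial (Fin (N + 1)) ℂ)} [P.IsPrime] {Ξ : Set (PN N)} (h : GGLOpen P (one N) Ξ) : GGL P Ξ := by
  obtain ⟨h1, h2, h3, h4, h5, h6⟩ := h
  rw [locVar_one] at h1 h2
  refine ⟨h1, h2, fun w hw hz => ?_, fun f hf hfX hfΞ => ?_, fun f hf hfX hfn => ?_, fun Q _ hQ hPQ hsub w hw hz => ?_⟩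
  · have h := h3 w hw hz
    rwa [onBd_one] at h
  · exact h4 f hf (fun z hz => by rw [locVar_one]; exact hfX z hz) hfΞ
  · exact h5 f hf (fun z => by rw [locVar_one]; exact hfX z) hfn
  · have h := h6 Q hQ hPQ (by rw [locVar_one]; exact hsub) w hw hz
    rwa [onBd_one] at h

theorem projVar_nonempty {P : Ideal (MvPolynomial (Fin (N + 1)) ℂ)} [P.IsPrime] (hP : Homog P) {j : Fin (N + 1)} (hj : X j ∉ P) :
    (projVar P).Nonempty := by
  by_contra hcon
  rw [Set.not_nonempty_iff_eq_empty] at hcon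
  refine hj (Pool.Agent.H62.FC.mem_of_vanishes hP (S := ∅) (fun i hi => absurd hi (Finset.notMem_empty i)) ⟨j, hj⟩
    (isHomogeneous_X ℂ j) fun y hy => ?_)
  have h1 : y ∈ projVar P := hy.1
  rw [hcon] at h1
  exact absurd h1 (Set.notMem_empty y)

/-- indices of the coordinates of the Segre space -/
def idx (N M : ℕ) : Fin (N + 1) × Fin (M + 1) ≃ Fin ((N + 1) * M + N + 1) := finProdFinEquiv

/-- the columns -/
def col (N M : ℕ) (k : Fin (M + 1)) : Fin (N + 1) → MvPolynomial (Fin ((N + 1) * M + N + 1)) ℂ := fun i => X (idx N M (i, k))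

theorem col_homog (k : Fin (M + 1)) (i : Fin (N + 1)) : (col N M k i).IsHomogeneous 1 := isHomogeneous_X ℂ _

theorem exists_col (y : PN ((N + 1) * M + N)) : ∃ k, vals (col N M k) y.rep ≠ 0 := by
  by_contra hcon
  push Not at hcon
  refine y.rep_nonzero (funext fun l => ?_)
  have h1 := congrFun (hcon ((idx N M).symm l).2) ((idx N M).symm l).1
  unfold vals col at h1
  rw [eval_X] at h1
  have h2 : idx N M (((idx N M).symm l).1, ((idx N M).symm l).2) = l := (idx N M).apply_symm_apply l
  rw [h2] at h1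
  exact h1

/-- the projection -/
def prj (N M : ℕ) (y : PN ((N + 1) * M + N)) : PN N := rmap (col N M (exists_col y).choose) y

/-- rank one -/
def RankOne (Q : Ideal (MvPolynomial (Fin ((N + 1) * M + N + 1)) ℂ)) : Prop :=
  ∀ i i' k k', X (idx N M (i, k)) * X (idx N M (i', k')) - X (idx N M (i', k)) * X (idx N M (i, k')) ∈ Q

theorem prj_eq {Q : Ideal (MvPolynomial (Fin ((N + 1) * M + N + 1)) ℂ)} (hQ : RankOne Q) {y : PN ((N + 1) * M + N)}
    (hy : y ∈ projVar Q) {k : Fin (M + 1)} (hk : vals (col N M k) y.rep ≠ 0) : prj N M y = rmap (col N M k) y := by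
  have h' := (exists_col (N := N) (M := M) y).choose_spec
  set k' := (exists_col (N := N) (M := M) y).choose with hk'
  change rmap (col N M k') y = _
  unfold Pool.Agent.H7.Bir.rmap
  rw [dif_pos h', dif_pos hk, Projectivization.mk_eq_mk_iff']
  obtain ⟨i₀, hi₀⟩ : ∃ i, vals (col N M k) y.rep i ≠ 0 := by
    by_contra hcon
    push Not at hcon
    exact hk (funext hcon)
  refine ⟨vals (col N M k') y.rep i₀ / vals (col N M k) y.rep i₀, ?_⟩
  funext i
  have h1 := hy _ (hQ i i₀ k k') 2 (((isHomogeneous_X ℂ _).mul (isHomogeneous_X ℂ _)).sub ((isHomogeneous_X ℂ _).mul (isHomogeneous_X ℂ _)))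
  unfold VanishesAt at h1
  rw [map_sub, map_mul, map_mul, eval_X, eval_X, eval_X, eval_X] at h1
  have h2 : ∀ i k, vals (col N M k) y.rep i = y.rep (idx N M (i, k)) := fun i k => by
    unfold vals col
    rw [eval_X]
  rw [Pi.smul_apply, smul_eq_mul, h2, h2, h2, h2]
  rw [h2] at hi₀
  field_simp
  linear_combination h1

variable {P : Ideal (MvPolynomial (Fin (N + 1)) ℂ)} [P.IsPrime] {P' : Ideal (MvPolynomial (Fin (M + 1)) ℂ)} [P'.IsPrime]

section graph

variable (φ : FunField P →ₐ[ℂ] FunField P') (j : Fin (N + 1)) (j' : Fin (M + 1))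

/-- the generic point of the graph -/
def gpt : Fin ((N + 1) * M + N + 1) → FunField P' := fun l =>
  φ (ratio P ((idx N M).symm l).1 j) * ratio P' ((idx N M).symm l).2 j'

theorem gpt_idx (i : Fin (N + 1)) (k : Fin (M + 1)) : gpt φ j j' (idx N M (i, k)) = φ (ratio P i j) * ratio P' k j' := by
  unfold gpt
  rw [Equiv.symm_apply_apply]

theorem rankOne : RankOne (pointIdeal (gpt φ j j')) := by
  intro i i' k k'
  rw [mem_pointIdeal_form _ (((isHomogeneous_X ℂ _).mul (isHomogeneous_X ℂ _)).sub ((isHomogeneous_X ℂ _).mul (isHomogeneous_X ℂ _)) :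
    (X (idx N M (i, k)) * X (idx N M (i', k')) - X (idx N M (i', k)) * X (idx N M (i, k')) :
      MvPolynomial (Fin ((N + 1) * M + N + 1)) ℂ).IsHomogeneous (1 + 1))]
  simp only [map_sub, map_mul, aeval_X, gpt_idx]
  ring

theorem aeval_col (k : Fin (M + 1)) {n : ℕ} {R : MvPolynomial (Fin (N + 1)) ℂ} (hR : R.IsHomogeneous n) :
    aeval (gpt φ j j') (aeval (col N M k) R) = φ (gen P j R) * ratio P' k j' ^ n := by
  rw [aeval_comp]
  have h1 : (fun i => aeval (gpt φ j j') (col N M k i)) = fun i => φ (ratio P i j) * ratio P' k j' := by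
    funext i
    unfold col
    rw [aeval_X, gpt_idx]
  rw [h1, aeval_scale' hR (ratio P' k j') fun i => φ (ratio P i j)]
  congr 1
  have h2 := DFunLike.congr_fun (MvPolynomial.comp_aeval (fun i => ratio P i j) φ) R
  exact h2.symm

theorem mem_col_iff (hj : coordFun P j ≠ 0) (hj' : coordFun P' j' ≠ 0) {n : ℕ} {R : MvPolynomial (Fin (N + 1)) ℂ} (hR : R.IsHomogeneous n) :
    aeval (col N M j') R ∈ pointIdeal (gpt φ j j') ↔ R ∈ P := by
  rw [mem_pointIdeal_form _ (hR.aeval (col N M j') (col_homog j')), aeval_col φ j j' j' hR, ratio_self hj', one_pow, mul_one,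
    map_eq_zero_iff φ φ.toRingHom.injective, gen_eq_zero_iff hj hR]

theorem mem_col (hj : coordFun P j ≠ 0) (k : Fin (M + 1)) {n : ℕ} {R : MvPolynomial (Fin (N + 1)) ℂ} (hR : R.IsHomogeneous n) (hRP : R ∈ P) :
    aeval (col N M k) R ∈ pointIdeal (gpt φ j j') := by
  rw [mem_pointIdeal_form _ (hR.aeval (col N M k) (col_homog k)), aeval_col φ j j' k hR, (gen_eq_zero_iff hj hR).2 hRP, map_zero, zero_mul]

theorem corner (hj : coordFun P j ≠ 0) (hj' : coordFun P' j' ≠ 0) : gpt φ j j' (idx N M (j, j')) = 1 := by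
  rw [gpt_idx, ratio_self hj, ratio_self hj', map_one, one_mul]

theorem corner_notMem (hj : coordFun P j ≠ 0) (hj' : coordFun P' j' ≠ 0) : X (idx N M (j, j')) ∉ pointIdeal (gpt φ j j') := by
  rw [mem_pointIdeal_form _ (isHomogeneous_X ℂ _), aeval_X, corner φ j j' hj hj']
  exact one_ne_zero

theorem prj_dominant (hj : coordFun P j ≠ 0) (hj' : coordFun P' j' ≠ 0) :
    IsDominantMap P (pointIdeal (gpt φ j j')) (one N) (one ((N + 1) * M + N)) (prj N M) := by
  have hmaps : ∀ y ∈ locVar (pointIdeal (gpt φ j j')) (one ((N + 1) * M + N)), prj N M y ∈ locVar P (one N) := by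
    intro y hy
    rw [locVar_one] at hy ⊢
    obtain ⟨k, hk⟩ := exists_col (N := N) (M := M) y
    rw [prj_eq (rankOne φ j j') hy hk]
    intro R hR n hRn
    rw [vanishesAt_rmap hk hRn]
    exact hy _ (mem_col φ j j' hj k hRn hR) _ (hRn.aeval (col N M k) (col_homog k))
  refine ⟨hmaps, fun y hy => ?_, fun Q n hQ h => ?_⟩
  · obtain ⟨k, hk⟩ := exists_col (N := N) (M := M) y
    refine ⟨1, col N M k, col_homog k, hk, fun y' hy' hk' => ?_⟩
    rw [locVar_one] at hy'
    exact prj_eq (rankOne φ j j') hy' hk'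
  · have h1 : aeval (col N M j') Q * X (idx N M (j, j')) ∈ pointIdeal (gpt φ j j') := by
      have hne : (locVar (pointIdeal (gpt φ j j')) (one ((N + 1) * M + N))).Nonempty := by
        rw [locVar_one]
        exact projVar_nonempty (homog_pointIdeal _) (corner_notMem φ j j' hj hj')
      refine mem_of_open (homog_pointIdeal _) (one_homog _) hne
        ((hQ.aeval (col N M j') (col_homog j')).mul (isHomogeneous_X ℂ _)) fun y hy => ?_
      have hy' := hy
      rw [locVar_one] at hy'
      unfold VanishesAt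
      rw [map_mul]
      by_cases hk : vals (col N M j') y.rep = 0
      · have h2 := congrFun hk j
        unfold vals col at h2
        rw [h2]
        exact mul_zero _
      · have h2 := h y hy
        rw [prj_eq (rankOne φ j j') hy' hk, vanishesAt_rmap hk hQ] at h2
        rw [show eval y.rep (aeval (col N M j') Q) = 0 from h2, zero_mul]
    rcases Ideal.IsPrime.mem_or_mem inferInstance h1 with h2 | h2
    · exact (mem_col_iff φ j j' hj hj' hQ).1 h2
    · exact absurd h2 (corner_notMem φ j j' hj hj')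

theorem graph_field (hj : coordFun P j ≠ 0) (hj' : coordFun P' j' ≠ 0) :
    Nonempty (FunField (pointIdeal (gpt φ j j')) ≃ₐ[ℂ] FunField P') := by
  have hcoord : coordFun (pointIdeal (gpt φ j j')) (idx N M (j, j')) ≠ 0 :=
    coordFun_ne_zero_iff.2 (corner_notMem φ j j' hj hj')
  refine funIso hcoord (corner φ j j' hj hj') ?_ fun n G hG => (mem_pointIdeal_form _ hG).symm
  rw [eq_top_iff, ← adjoin_ratio hj', IntermediateField.adjoin_le_iff]
  rintro _ ⟨k, rfl⟩
  refine IntermediateField.subset_adjoin ℂ _ ⟨idx N M (j, k), ?_⟩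
  rw [gpt_idx, ratio_self hj, map_one, one_mul]

end graph

/-- **The properties of the conjecture for all quasi-projective surfaces which dominate `X` by a rational map.** -/
theorem dom_open_four (hP' : Homog P') (hz : ∃ z : Fin 2 → FunField P, IsTranscendenceBasis ℂ z)
    (hP : Homog P) (hz' : ∃ z : Fin 2 → FunField P', IsTranscendenceBasis ℂ z) (φ : FunField P →ₐ[ℂ] FunField P') {s : ℕ}
    {G : Fin s → MvPolynomial (Fin (M + 1)) ℂ} (hG : ∀ m, ∃ n, (G m).IsHomogeneous n) (hne : (locVar P' G).Nonempty)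
    {Ξ : Set (PN N)} (h : GGL P Ξ) : ∃ Ξ' : Set (PN M), GGLOpen P' G Ξ' := by
  obtain ⟨z, hz⟩ := hz
  obtain ⟨z', hz'⟩ := hz'
  obtain ⟨j, hj⟩ := Pool.Agent.H92.GT.Proj.exists_coordFun_ne_zero P z hz
  obtain ⟨j', hj'⟩ := Pool.Agent.H92.GT.Proj.exists_coordFun_ne_zero P' z' hz'
  obtain ⟨e⟩ := graph_field φ j j' hj hj'
  have hne1 : (locVar P (one N)).Nonempty := by
    rw [locVar_one]
    exact projVar_nonempty hP (coordFun_ne_zero_iff.1 hj)
  have h1 : GGLOpen P (one N) (Ξ ∩ locVar P (one N)) := open_four hP (one_homog N) hne1 h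
  obtain ⟨Ξ₁, h2⟩ := open_dominant (homog_pointIdeal (gpt φ j j')) ⟨z, hz⟩ ⟨e.symm ∘ z', e.symm.isTranscendenceBasis hz'⟩ (one_homog N)
    (one_homog _) (prj_dominant φ j j' hj hj') h1
  exact bir_open_four (homog_pointIdeal (gpt φ j j')) ⟨1, e.symm ∘ z', e.symm.isTranscendenceBasis hz'⟩ hP' e.symm hG hne (ggl_of_open h2)

end Pool.Agent.H66.SD
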